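import Mathlib

/-!
# Circulant determinants over finite chain rings are not unit invariant

Let `k` be a finite field of characteristic `p` and let `R = k[γ]/(γ²)` (the ring of dual numbers
over `k`).  This is a commutative finite chain ring with residue field `k`, maximal ideal `γR` and
nilpotency index `2`.  For every positive integer `n` divisible by `p` no `n × n` circulant matrix
over `R` has determinant `1 + γ`, although the identity matrix has determinant `1`.
-/

open scoped DualNumber
open DualNumber

namespace Pool.Agent.Results.MP_ad0c0d_al.UnitInvarianceFails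

universe u

/-- The `n × n` circulant matrix with first row `a`: every later row is the row above it, cyclically
shifted one place to the right, so that the entry `(i, j)` is `a (j - i)`, indices modulo `n`. -/
def cir {R : Type u} {n : ℕ} [NeZero n] (a : Fin n → R) : Matrix (Fin n) (Fin n) R :=
  Matrix.of fun i j => a (j - i)

/-- `c_n(R, a)`: the number of tuples `(a₁, …, aₙ)` in `Rⁿ` with `det cir(a₁, …, aₙ) = a`. -/
noncomputable def c (n : ℕ) [NeZero n] (R : Type u) [CommRing R] (a : R) : ℕ :=
  Nat.card {v : Fin n → R // (cir v).det = a}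

theorem submatrix_cir {R : Type u} {n : ℕ} [NeZero n] (a : Fin n → R) :
    (cir a).submatrix (Equiv.addRight (1 : Fin n)) (Equiv.addRight (1 : Fin n)) = cir a := by
  ext i j
  simp [cir]

theorem diag_eq {R : Type u} {n : ℕ} [NeZero n] (X : Matrix (Fin n) (Fin n) R)
    (h : X.submatrix (Equiv.addRight (1 : Fin n)) (Equiv.addRight (1 : Fin n)) = X) (i : Fin n) :
    X i i = X 0 0 := by
  have h1 : ∀ j : Fin n, X (j + 1) (j + 1) = X j j := fun j => congrFun (congrFun h j) j
  have h2 : ∀ (m : ℕ) (hm : m < n), X ⟨m, hm⟩ ⟨m, hm⟩ = X 0 0 := by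
    intro m
    induction m with
    | zero => intro hm; rfl
    | succ m ih =>
      intro hm
      have h3 : (⟨m + 1, hm⟩ : Fin n) = ⟨m, by omega⟩ + 1 := by
        apply Fin.ext
        rw [Fin.val_add, Fin.val_one']
        have h4 : 1 % n = 1 := Nat.mod_eq_of_lt (by omega)
        rw [h4]
        exact (Nat.mod_eq_of_lt hm).symm
      rw [h3, h1, ih]
  exact h2 i.val i.isLt

theorem det_ne (p : ℕ) (k : Type u) [Field k] [CharP k p] (n : ℕ) [NeZero n] (hn : p ∣ n)
    (v : Fin n → k[ε]) : (cir v).det ≠ 1 + ε := by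
  intro hdet
  set M : Matrix (Fin n) (Fin n) k[ε] := cir v with hM
  let M0 : Matrix (Fin n) (Fin n) k := cir (fun i => (v i).fst)
  let M1 : Matrix (Fin n) (Fin n) k := cir (fun i => (v i).snd)
  have hfst : (TrivSqZeroExt.fstHom k k k).toRingHom.mapMatrix M = M0 := by
    ext i j
    simp [hM, M0, cir]
  have hdet0 : M0.det = 1 := by
    rw [← hfst, ← RingHom.map_det, hdet]
    simp
  have hu : IsUnit M0.det := by rw [hdet0]; exact isUnit_one
  let X : Matrix (Fin n) (Fin n) k := M0⁻¹ * M1
  have hX : X.submatrix (Equiv.addRight (1 : Fin n)) (Equiv.addRight (1 : Fin n)) = X := by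
    have h1 := Matrix.submatrix_mul_equiv M0⁻¹ M1 (Equiv.addRight (1 : Fin n))
      (Equiv.addRight (1 : Fin n)) (Equiv.addRight (1 : Fin n))
    have h2 : M0⁻¹.submatrix (Equiv.addRight (1 : Fin n)) (Equiv.addRight (1 : Fin n)) = M0⁻¹ := by
      rw [← Matrix.inv_submatrix_equiv, submatrix_cir]
    rw [h2, submatrix_cir] at h1
    exact h1.symm
  have htr : X.trace = 0 := by
    rw [Matrix.trace]
    simp only [Matrix.diag_apply]
    rw [Finset.sum_congr rfl (fun i _ => diag_eq X hX i), Finset.sum_const, Finset.card_univ,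
      Fintype.card_fin, nsmul_eq_mul, (CharP.cast_eq_zero_iff k p n).mpr hn, zero_mul]
  have hMX : M = (M0.map TrivSqZeroExt.inl) * (1 + (ε : k[ε]) • (X.map TrivSqZeroExt.inl)) := by
    have h1 : M0 * X = M1 := by
      simp only [X]
      rw [← Matrix.mul_assoc, Matrix.mul_nonsing_inv _ hu, Matrix.one_mul]
    have h2 : (M0.map (TrivSqZeroExt.inl : k → k[ε])) * (X.map TrivSqZeroExt.inl) =
        M1.map TrivSqZeroExt.inl := by
      rw [← h1]
      exact ((TrivSqZeroExt.inlHom k k).mapMatrix.map_mul M0 X).symm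
    rw [Matrix.mul_add, Matrix.mul_one, Matrix.mul_smul, h2]
    ext i j
    · simp [hM, M0, M1, cir]
    · simp [hM, M0, M1, cir]
  have hdet2 : M.det = 1 := by
    rw [hMX, Matrix.det_mul, Matrix.det_one_add_smul, eps_pow_two, mul_zero, add_zero]
    have h3 : (X.map (TrivSqZeroExt.inl : k → k[ε])).trace = 0 := by
      rw [Matrix.trace]
      simp only [Matrix.diag_apply, Matrix.map_apply]
      rw [Finset.sum_congr rfl (fun i _ => by rw [diag_eq X hX i]), Finset.sum_const,
        Finset.card_univ, Fintype.card_fin, nsmul_eq_mul]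
      have h5 : ((n : ℕ) : k[ε]) = TrivSqZeroExt.inl ((n : ℕ) : k) := by simp
      rw [h5, (CharP.cast_eq_zero_iff k p n).mpr hn]
      simp
    have h4 : (M0.map (TrivSqZeroExt.inl : k → k[ε])).det = 1 := by
      have := (TrivSqZeroExt.inlHom k k).map_det M0
      rw [hdet0, map_one] at this
      exact this.symm
    rw [h3, h4, zero_mul, add_zero, mul_one]
  rw [hdet2] at hdet
  have := congrArg TrivSqZeroExt.snd hdet
  simp at this

/-- **Unit invariance of circulant determinant counts fails.**  For every prime `p`, every finite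
field `k` of characteristic `p` and every positive integer `n` divisible by `p`, the ring
`R = k[γ]/(γ²)` is a commutative finite chain ring, `γ` generates its maximal ideal, its nilpotency
index is `2`, `1 + γ` is a unit, and `c_n(R, γ^0) ≠ c_n(R, (1 + γ)γ^0)`: the first number is
positive and the second one is zero. -/
theorem result (p : ℕ) [Fact p.Prime] (k : Type u) [Field k] [Finite k] [CharP k p]
    (n : ℕ) [NeZero n] (hn : p ∣ n) :
    Finite k[ε] ∧ (∀ I J : Ideal k[ε], I ≤ J ∨ J ≤ I) ∧
      (Ideal.span {(ε : k[ε])}).IsMaximal ∧ (ε : k[ε]) ≠ 0 ∧ (ε : k[ε]) ^ 2 = 0 ∧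
      IsUnit (1 + ε : k[ε]) ∧
      0 < c n k[ε] ((ε : k[ε]) ^ 0) ∧ c n k[ε] ((1 + ε) * (ε : k[ε]) ^ 0) = 0 := by
  have : Finite k[ε] := inferInstanceAs (Finite (k × k))
  refine ⟨inferInstance, ?_, isMaximal_span_singleton_eps, ?_, eps_pow_two, ?_, ?_, ?_⟩
  · intro I J
    rcases ideal_trichotomy I with rfl | rfl | rfl
    · exact Or.inl bot_le
    · rcases ideal_trichotomy J with rfl | rfl | rfl
      · exact Or.inr bot_le
      · exact Or.inl le_rfl
      · exact Or.inl le_top
    · exact Or.inr le_top
  · intro h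
    have := congrArg TrivSqZeroExt.snd h
    simp at this
  · rw [TrivSqZeroExt.isUnit_iff_isUnit_fst]
    simp
  · rw [c, pow_zero]
    have : Nonempty {v : Fin n → k[ε] // (cir v).det = 1} := by
      refine ⟨⟨Pi.single 0 1, ?_⟩⟩
      have : cir (Pi.single (0 : Fin n) (1 : k[ε])) = 1 := by
        ext1 i j
        by_cases h : i = j
        · subst h; simp [cir]
        · have h' : j - i ≠ 0 := fun h2 => h (sub_eq_zero.mp h2).symm
          simp [cir, Matrix.one_apply_ne h, Pi.single_apply, h']
      rw [this, Matrix.det_one]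
    exact Nat.card_pos
  · rw [c, pow_zero, mul_one]
    have : IsEmpty {v : Fin n → k[ε] // (cir v).det = 1 + ε} :=
      ⟨fun v => det_ne p k n hn v.1 v.2⟩
    exact Nat.card_of_isEmpty

end Pool.Agent.Results.MP_ad0c0d_al.UnitInvarianceFails
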